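import Mathlib

namespace Pool.Agent.Results.MP_0dc42e_co.Full

open Finset Matrix Classical

variable {F : Type} [Field F] {r n : ℕ}

/-- circuits of the column matroid of `A` -/
def IsCircuit (A : Matrix (Fin r) (Fin n) F) (C : Set (Fin n)) : Prop :=
  Minimal (fun D => ¬ LinearIndepOn F A.col D) C

/-- the restriction to `S` is connected -/
def Conn (A : Matrix (Fin r) (Fin n) F) (S : Finset (Fin n)) : Prop :=
  ∀ x ∈ S, ∀ y ∈ S, x ≠ y → ∃ C, IsCircuit A C ∧ C ⊆ S ∧ x ∈ C ∧ y ∈ C

/-- least maximum support size of a basis of the row space -/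
noncomputable def Lam (A : Matrix (Fin r) (Fin n) F) : ℕ :=
  sInf {L | ∃ B : Set (Fin n → F), LinearIndepOn F id B ∧
    Submodule.span F B = Submodule.span F (Set.range A.row) ∧
    ∀ b ∈ B, (Function.support b).ncard ≤ L}

noncomputable def N (A : Matrix (Fin r) (Fin n) F) (e : Fin n) (k : ℕ) : ℕ :=
  {S : Finset (Fin n) | e ∈ S ∧ S.card = k ∧ Conn A S}.ncard

theorem explore {α : Type} [DecidableEq α] (e : α) (M : ℕ) (pool : Finset α → Finset α) (G : Finset (Finset α))
    (mono : ∀ S T, S ⊆ T → pool S ⊆ pool T) (hc : ∀ S ∈ G, (pool S).card ≤ M)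
    (hp : ∀ S ∈ G, ∀ T ⊆ S, e ∈ T → T ≠ S → ∃ x ∈ S, x ∉ T ∧ x ∈ pool T) (m : ℕ) :
    ∀ D T : Finset α, e ∈ T → D ⊆ insert e (pool T) → D.card + m = M + 1 →
      (G.filter fun S => S ∩ D = T).card ≤ 2 ^ m := by
  have fin : ∀ D T : Finset α, e ∈ T → pool T ⊆ D → (G.filter fun S => S ∩ D = T).card ≤ 1 := by
    intro D T he h
    refine card_le_one_iff_subset_singleton.2 ⟨T, fun S hS => mem_singleton.2 ?_⟩
    obtain ⟨h1, h2⟩ := mem_filter.1 hS
    by_contra n
    obtain ⟨x, a, b, c⟩ := hp S h1 T (h2 ▸ inter_subset_left) he (Ne.symm n)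
    exact b (h2 ▸ mem_inter.2 ⟨a, h c⟩)
  induction m with
  | zero =>
    intro D T he h c
    by_cases g : pool T ⊆ D
    · exact fin D T he g
    obtain ⟨x, a, b⟩ := not_subset.1 g
    rw [card_eq_zero.2 (filter_eq_empty_iff.2 fun S hS e2 => ?_)]
    · simp
    have h1 := card_le_card (insert_subset (mem_insert_of_mem a) h)
    have h2 := card_insert_le e (pool T)
    have h3 := card_le_card (mono T S (e2 ▸ inter_subset_left))
    have := hc S hS
    rw [card_insert_of_notMem b] at h1
    omega
  | succ m ih =>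
    intro D T he h c
    by_cases g : pool T ⊆ D
    · exact (fin D T he g).trans Nat.one_le_two_pow
    obtain ⟨x, a, b⟩ := not_subset.1 g
    have s := insert_subset (mem_insert_of_mem a) h
    have c' : (insert x D).card + m = M + 1 := by rw [card_insert_of_notMem b]; omega
    have h1 := ih (insert x D) T he s c'
    have h2 := ih (insert x D) (insert x T) (mem_insert_of_mem he)
      (s.trans (insert_subset_insert _ (mono _ _ (subset_insert _ _)))) c'
    refine (card_le_card fun S hS => ?_).trans ((card_union_le _ _).trans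
      ((add_le_add h1 h2).trans_eq (by ring)))
    simp only [mem_union, mem_filter] at hS ⊢
    by_cases z : x ∈ S
    · exact Or.inr ⟨hS.1, by rw [inter_insert_of_mem z, hS.2]⟩
    · exact Or.inl ⟨hS.1, by rw [inter_insert_of_notMem z, hS.2]⟩

/-- rows that are first to detect some vector supported in `S` -/
noncomputable def piv {s : ℕ} (b : Fin s → Fin n → F) (S : Finset (Fin n)) : Finset (Fin s) :=
  univ.filter fun i => ∃ x : Fin n → F, (∀ j, j ∉ S → x j = 0) ∧ b i ⬝ᵥ x ≠ 0 ∧
    ∀ i' < i, b i' ⬝ᵥ x = 0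

theorem piv_card {s : ℕ} (b : Fin s → Fin n → F) (S : Finset (Fin n)) :
    (piv b S).card ≤ S.card := by
  choose x h1 h2 h3 using fun i : piv b S => (mem_filter.1 i.2).2
  have : LinearIndependent F fun (i : piv b S) (j : S) => x i j := by
    rw [Fintype.linearIndependent_iff]
    intro g hg
    have z : ∑ i, g i • x i = 0 := by
      ext j
      by_cases m : j ∈ S
      · simpa using congrFun hg ⟨j, m⟩
      · simp [h1 _ j m]
    intro i
    induction i using WellFoundedLT.induction with
    | ind i ih =>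
    have := congrArg (b i ⬝ᵥ ·) z
    simp only [dotProduct_sum, dotProduct_smul, dotProduct_zero, smul_eq_mul] at this
    rw [sum_eq_single i (fun j _ n => ?_) (by simp)] at this
    · exact (mul_eq_zero.1 this).resolve_right (h2 i)
    · rcases lt_or_gt_of_ne n with l | l
      · rw [ih j l, zero_mul]
      · rw [h3 j i l, mul_zero]
  simpa using this.fintype_card_le_finrank

theorem result (A : Matrix (Fin r) (Fin n) F) (e : Fin n) (k : ℕ) :
    N A e k ≤ (2 ^ Lam A) ^ k := by
  obtain ⟨B, b1, b2, b3⟩ : ∃ B : Set (Fin n → F), LinearIndepOn F id B ∧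
      Submodule.span F B = Submodule.span F (Set.range A.row) ∧
      ∀ b ∈ B, (Function.support b).ncard ≤ Lam A := by
    refine Nat.sInf_mem (s := {L | ∃ B : Set (Fin n → F), LinearIndepOn F id B ∧
      Submodule.span F B = Submodule.span F (Set.range A.row) ∧
      ∀ b ∈ B, (Function.support b).ncard ≤ L}) ⟨n, ?_⟩
    obtain ⟨B, _, h1, h2⟩ := exists_linearIndependent F (Set.range A.row)
    exact ⟨B, h2, h1, fun b _ => by simpa using Set.ncard_le_card (Function.support b)⟩
  obtain ⟨s, b, -, rfl⟩ := b1.linearIndependent.setFinite.fin_param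
  let pool : Finset (Fin n) → Finset (Fin n) := fun S =>
    (piv b S).biUnion fun i => (Function.support (b i)).toFinset
  let G := univ.filter fun S : Finset (Fin n) => e ∈ S ∧ S.card = k ∧ Conn A S
  have := explore e (Lam A * k) pool G ?_ ?_ ?_ (Lam A * k) {e} {e} (by simp) (by simp)
    (by simp [add_comm])
  · rw [filter_true_of_mem (s := G) (p := fun S => S ∩ {e} = {e})
      fun S hS => inter_singleton_of_mem (mem_filter.1 hS).2.1] at this
    rw [← pow_mul, N, Set.ncard_eq_toFinset_card', Set.toFinset_ofPred]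
    exact this
  · intro S T h
    refine biUnion_subset_biUnion_of_subset_left _ (monotone_filter_right _ ?_)
    rintro i _ ⟨x, h1, h2⟩
    exact ⟨x, fun j m => h1 j fun g => m (h g), h2⟩
  · intro S hS
    refine (card_biUnion_le_card_mul _ _ (Lam A) fun i _ => ?_).trans ?_
    · rw [← Set.ncard_eq_toFinset_card']
      exact b3 _ ⟨i, rfl⟩
    · rw [mul_comm, ← (mem_filter.1 hS).2.2.1]
      exact Nat.mul_le_mul_left _ (piv_card b S)
  intro S hS T hT he ne
  obtain ⟨y, y1, y2⟩ := exists_of_ssubset (hT.ssubset_of_ne ne)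
  obtain ⟨C, hC, cs, ce, cy⟩ := (mem_filter.1 hS).2.2.2 e (hT he) y y1 (by rintro rfl; exact y2 he)
  have ind : ∀ (x : Fin n → F) (z), z ∈ C → x z = 0 → (∀ j, j ∉ C → x j = 0) → A *ᵥ x = 0 →
      x = 0 := by
    intro x z hz xz h1 h2
    have li : LinearIndepOn F A.col (C \ {z}) := by
      by_contra g
      exact (hC.2 g Set.sdiff_subset hz).2 rfl
    have := linearIndepOn_iff.1 li (Finsupp.equivFunOnFinite.symm x) (by
      intro j hj
      have hj : x j ≠ 0 := by simpa using hj
      exact ⟨by_contra fun g => hj (h1 j g), by rintro rfl; exact hj xz⟩) (by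
      rw [Finsupp.linearCombination_apply, Finsupp.sum_fintype _ _ (by simp), ← h2]
      ext i
      simp [mulVec, dotProduct, mul_comm])
    exact congrArg Finsupp.equivFunOnFinite this
  obtain ⟨x, x1, x2, x3⟩ : ∃ x : Fin n → F, (∀ j, j ∉ C → x j = 0) ∧ A *ᵥ x = 0 ∧ x ≠ 0 := by
    obtain ⟨l, l1, l2, l3⟩ := linearDepOn_iff.1 hC.1
    refine ⟨l, fun j m => by_contra fun g => m (l1 (by simpa using g)), ?_, by simpa using l3⟩
    ext i
    rw [sum_subset (subset_univ _) fun j _ m => by simp [Finsupp.notMem_support_iff.1 m]] at l2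
    simpa [mulVec, dotProduct, mul_comm] using congrFun l2 i
  let u : Fin n → F := fun j => if j ∈ T then x j else 0
  have perp : ∀ v : Fin n → F, ∀ P : Set (Fin n → F), (∀ p ∈ P, p ⬝ᵥ v = 0) →
      ∀ p ∈ Submodule.span F P, p ⬝ᵥ v = 0 := by
    intro v P h p hp
    induction hp using Submodule.span_induction with
    | mem p m => exact h p m
    | zero => simp
    | add p q _ _ a c => simp [a, c]
    | smul c p _ a => simp [a]
  have hu : ∃ i, b i ⬝ᵥ u ≠ 0 := by
    by_contra! g
    have := ind u y cy (if_neg y2) (fun j m => by simp [u, x1 j m]) (funext fun i =>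
      perp u (Set.range b) (by rintro _ ⟨i, rfl⟩; exact g i) (A.row i)
        (b2 ▸ Submodule.subset_span (Set.mem_range_self i)))
    exact x3 (ind x e ce (by simpa [u, he] using congrFun this e) x1 x2)
  obtain ⟨i, hi, mi⟩ := exists_minimal_of_wellFoundedLT _ hu
  have h0 : b i ⬝ᵥ x = 0 := perp x (Set.range A.row) (by rintro _ ⟨i, rfl⟩; exact congrFun x2 i) _
    (b2 ▸ Submodule.subset_span (Set.mem_range_self i))
  obtain ⟨j, hj⟩ : ∃ j, b i j * x j ≠ b i j * u j := by
    by_contra! g
    exact hi (h0 ▸ sum_congr rfl fun j _ => (g j).symm)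
  have n1 : j ∉ T := fun m => hj (by simp [u, m])
  rw [show u j = 0 from if_neg n1, mul_zero, mul_ne_zero_iff] at hj
  refine ⟨j, cs (by_contra fun g => hj.2 (x1 j g)), n1, mem_biUnion.2 ⟨i, mem_filter.2
    ⟨mem_univ _, u, fun j m => if_neg m, hi, fun i' l => by_contra fun g => ?_⟩, by simpa using hj.1⟩⟩
  exact absurd (mi g l.le) l.not_ge

end Pool.Agent.Results.MP_0dc42e_co.Full
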